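import Pool.Agent.Helper89.GW.Stmts

set_option autoImplicit false

open scoped ContDiff Topology
open Set Filter

namespace GW

theorem ball_pd {ψ : ℝ × ℝ → ℝ} (hψ : ContDiff ℝ ∞ ψ) (w : ℝ × ℝ) :
    ContDiff ℝ ∞ (fun z => fderiv ℝ ψ z w) :=
  (hψ.fderiv_right (by norm_cast)).clm_apply contDiff_const

theorem ball_pd2 {ψ : ℝ × ℝ → ℝ} (hψ : ContDiff ℝ ∞ ψ) (w z v : ℝ × ℝ) :
    fderiv ℝ (fun z => fderiv ℝ ψ z w) z v = fderiv ℝ (fderiv ℝ ψ) z v w := by
  have h1 : HasFDerivAt (fderiv ℝ ψ) (fderiv ℝ (fderiv ℝ ψ) z) z :=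
    ((hψ.fderiv_right (m := ∞) (by norm_cast)).differentiable (by simp) z).hasFDerivAt
  have h2 := h1.clm_apply (hasFDerivAt_const w z)
  rw [h2.fderiv]
  simp

theorem ball_symm {ψ : ℝ × ℝ → ℝ} (hψ : ContDiff ℝ ∞ ψ) (z v w : ℝ × ℝ) :
    fderiv ℝ (fderiv ℝ ψ) z v w = fderiv ℝ (fderiv ℝ ψ) z w v := by
  have h : IsSymmSndFDerivAt ℝ ψ z := by
    refine hψ.contDiffAt.isSymmSndFDerivAt ?_
    rw [minSmoothness_of_isRCLikeNormedField]
    exact WithTop.coe_le_coe.2 le_top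
  exact h.eq v w

theorem ball_lin (A : ℝ × ℝ →L[ℝ] ℝ) (x t : ℝ) : A (x, t) = x * A (1, 0) + t * A (0, 1) := by
  have : ((x, t) : ℝ × ℝ) = x • (1, 0) + t • (0, 1) := by ext <;> simp
  rw [this, map_add, map_smul, map_smul, smul_eq_mul, smul_eq_mul]

/-- the base point of the chart -/
def ball_b (c : ℝ × ℝ) (x : E) : ℝ × ℝ := (c.1 + x 0, c.2 + x 2)

/-- the linear part -/
noncomputable def ball_p : E →L[ℝ] ℝ × ℝ :=
  (ContinuousLinearMap.proj 0).prod (ContinuousLinearMap.proj 2)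

theorem ball_hb (c : ℝ × ℝ) (x : E) : HasFDerivAt (ball_b c) ball_p x := by
  have h : HasFDerivAt (fun x : E => ball_p x) ball_p x := ball_p.hasFDerivAt
  have h2 := h.const_add c
  refine h2.congr_of_eventuallyEq (Eventually.of_forall fun y => ?_)
  simp only [ball_b, ball_p]
  ext <;> simp

/-- the chart -/
noncomputable def ball_chi (ψ : ℝ × ℝ → ℝ) (c : ℝ × ℝ) (x : E) : E :=
  ![c.1 + x 0, x 1 + dX ψ (ball_b c x), c.2 + x 2, x 3 + dT ψ (ball_b c x)]

theorem ball_smooth {ψ : ℝ × ℝ → ℝ} (hψ : ContDiff ℝ ∞ ψ) (c : ℝ × ℝ) :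
    ContDiff ℝ ∞ (ball_chi ψ c) := by
  have hb : ContDiff ℝ ∞ (ball_b c) := by
    unfold ball_b
    exact (contDiff_const.add (contDiff_apply ℝ ℝ 0)).prodMk
      (contDiff_const.add (contDiff_apply ℝ ℝ 2))
  have h1 : ContDiff ℝ ∞ (dX ψ) := ball_pd hψ (1, 0)
  have h2 : ContDiff ℝ ∞ (dT ψ) := ball_pd hψ (0, 1)
  rw [contDiff_pi]
  intro i
  unfold ball_chi
  fin_cases i
  · exact contDiff_const.add (contDiff_apply ℝ ℝ 0)
  · exact (contDiff_apply ℝ ℝ 1).add (h1.comp hb)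
  · exact contDiff_const.add (contDiff_apply ℝ ℝ 2)
  · exact (contDiff_apply ℝ ℝ 3).add (h2.comp hb)

theorem ball_fd {ψ : ℝ × ℝ → ℝ} (hψ : ContDiff ℝ ∞ ψ) (c : ℝ × ℝ) (x u : E) :
    fderiv ℝ (ball_chi ψ c) x u =
      ![u 0, u 1 + fderiv ℝ (fderiv ℝ ψ) (ball_b c x) (u 0, u 2) (1, 0), u 2,
        u 3 + fderiv ℝ (fderiv ℝ ψ) (ball_b c x) (u 0, u 2) (0, 1)] := by
  have hd := (ball_smooth hψ c).differentiable (by simp)
  have key : ∀ i, fderiv ℝ (ball_chi ψ c) x u i = fderiv ℝ (fun x => ball_chi ψ c x i) x u := by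
    intro i
    have h := hasFDerivAt_pi'.1 (hd x).hasFDerivAt i
    rw [h.fderiv]
    rfl
  have hp : ∀ i : Fin 4, HasFDerivAt (fun x : E => x i)
      (ContinuousLinearMap.proj (R := ℝ) (φ := fun _ : Fin 4 => ℝ) i) x :=
    fun i => hasFDerivAt_apply i x
  have hc : ∀ w : ℝ × ℝ, HasFDerivAt (fun x : E => fderiv ℝ ψ (ball_b c x) w)
      ((fderiv ℝ (fun z => fderiv ℝ ψ z w) (ball_b c x)).comp ball_p) x := by
    intro w
    exact ((ball_pd hψ w).differentiable (by simp) (ball_b c x)).hasFDerivAt.comp x (ball_hb c x)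
  funext i
  rw [key]
  fin_cases i
  · have h : HasFDerivAt (fun x : E => ball_chi ψ c x 0)
        (ContinuousLinearMap.proj (R := ℝ) (φ := fun _ : Fin 4 => ℝ) 0) x :=
      (hp 0).const_add c.1
    simp only [Fin.zero_eta]
    rw [h.fderiv]
    rfl
  · have h : HasFDerivAt (fun x : E => ball_chi ψ c x 1)
        (ContinuousLinearMap.proj (R := ℝ) (φ := fun _ : Fin 4 => ℝ) 1 +
          (fderiv ℝ (fun z => fderiv ℝ ψ z (1, 0)) (ball_b c x)).comp ball_p) x :=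
      (hp 1).add (hc (1, 0))
    simp only [Fin.mk_one]
    rw [h.fderiv, _root_.add_apply, ContinuousLinearMap.comp_apply, ball_pd2 hψ]
    rfl
  · have h : HasFDerivAt (fun x : E => ball_chi ψ c x 2)
        (ContinuousLinearMap.proj (R := ℝ) (φ := fun _ : Fin 4 => ℝ) 2) x :=
      (hp 2).const_add c.2
    simp only [Fin.reduceFinMk]
    rw [h.fderiv]
    rfl
  · have h : HasFDerivAt (fun x : E => ball_chi ψ c x 3)
        (ContinuousLinearMap.proj (R := ℝ) (φ := fun _ : Fin 4 => ℝ) 3 +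
          (fderiv ℝ (fun z => fderiv ℝ ψ z (0, 1)) (ball_b c x)).comp ball_p) x :=
      (hp 3).add (hc (0, 1))
    simp only [Fin.reduceFinMk]
    rw [h.fderiv, _root_.add_apply, ContinuousLinearMap.comp_apply, ball_pd2 hψ]
    rfl

theorem st_BALL : ST_BALL := by
  intro L ψ c U hψ hU hc hL
  have h0 : ball_chi ψ c 0 ∈ U := by
    have : ball_chi ψ c 0 = ![c.1, dX ψ c, c.2, dT ψ c] := by
      simp [ball_chi, ball_b]
    rw [this]
    exact hc
  have hopen : IsOpen (ball_chi ψ c ⁻¹' U) := hU.preimage (ball_smooth hψ c).continuous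
  obtain ⟨r, hr, hrU⟩ := Metric.isOpen_iff.1 hopen 0 h0
  have hin : ∀ x ∈ bal r, ball_chi ψ c x ∈ U := by
    intro x hx
    apply hrU
    rw [Metric.mem_ball, dist_zero_right, pi_norm_lt_iff hr]
    have hx' : x 0 ^ 2 + x 1 ^ 2 + x 2 ^ 2 + x 3 ^ 2 < r ^ 2 := hx
    have hh : ∀ i, x i ^ 2 < r ^ 2 := by
      intro i
      fin_cases i <;> simp only [Fin.zero_eta, Fin.mk_one, Fin.reduceFinMk] <;>
        nlinarith [sq_nonneg (x 0), sq_nonneg (x 1), sq_nonneg (x 2), sq_nonneg (x 3)]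
    intro i
    rw [Real.norm_eq_abs]
    exact abs_lt_of_sq_lt_sq (hh i) hr.le
  refine ⟨r, ball_chi ψ c, hr, ⟨(ball_smooth hψ c).contDiffOn, ?_, ?_, ?_⟩, hin⟩
  · intro x _ y _ hxy
    have e0 : c.1 + x 0 = c.1 + y 0 := congrFun hxy 0
    have e1 : x 1 + dX ψ (ball_b c x) = y 1 + dX ψ (ball_b c y) := congrFun hxy 1
    have e2 : c.2 + x 2 = c.2 + y 2 := congrFun hxy 2
    have e3 : x 3 + dT ψ (ball_b c x) = y 3 + dT ψ (ball_b c y) := congrFun hxy 3
    have hb : ball_b c x = ball_b c y := by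
      unfold ball_b
      rw [e0, e2]
    rw [hb] at e1 e3
    funext i
    fin_cases i
    · simp only [Fin.zero_eta]; linarith
    · simp only [Fin.mk_one]; linarith
    · simp only [Fin.reduceFinMk]; linarith
    · simp only [Fin.reduceFinMk]; linarith
  · intro x _ u v
    rw [ball_fd hψ, ball_fd hψ]
    have hs := ball_symm hψ (ball_b c x) (0, 1) (1, 0)
    have l1 : ∀ (a b : ℝ) (w : ℝ × ℝ), fderiv ℝ (fderiv ℝ ψ) (ball_b c x) (a, b) w =
        a * fderiv ℝ (fderiv ℝ ψ) (ball_b c x) (1, 0) w +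
        b * fderiv ℝ (fderiv ℝ ψ) (ball_b c x) (0, 1) w := by
      intro a b w
      have : ((a, b) : ℝ × ℝ) = a • (1, 0) + b • (0, 1) := by ext <;> simp
      rw [this, map_add, map_smul, map_smul]
      simp only [_root_.add_apply, _root_.smul_apply, smul_eq_mul]
    rw [l1 (u 0) (u 2) (1, 0), l1 (u 0) (u 2) (0, 1), l1 (v 0) (v 2) (1, 0),
      l1 (v 0) (v 2) (0, 1)]
    simp only [om, Matrix.cons_val_zero, Matrix.cons_val_one, Matrix.cons_val]
    linear_combination (u 0 * v 2 - u 2 * v 0) * hs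
  · intro x hx
    rw [hL _ (hin x hx)]
    have hpr : pr (ball_chi ψ c x) = ball_b c x := rfl
    rw [hpr]
    have e1 : ball_chi ψ c x 1 = x 1 + dX ψ (ball_b c x) := rfl
    have e3 : ball_chi ψ c x 3 = x 3 + dT ψ (ball_b c x) := rfl
    rw [e1, e3]
    constructor
    · rintro ⟨h1, h3⟩
      exact ⟨by linarith, by linarith⟩
    · rintro ⟨h1, h3⟩
      rw [h1, h3]
      exact ⟨by ring, by ring⟩

end GW
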