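import Pool.Agent.Helper89.GW.Stmts

set_option autoImplicit false

open scoped ContDiff Topology
open Set Filter

namespace GW

theorem jful_ee : (0 : ℝ) < ee := by unfold ee; norm_num

theorem jful_dX_add {φ u : ℝ × ℝ → ℝ} (hφ : ContDiff ℝ ∞ φ) (hu : ContDiff ℝ ∞ u) (k : ℝ)
    (z : ℝ × ℝ) (w : ℝ × ℝ) : fderiv ℝ (fun z => φ z + u z - k) z w =
      fderiv ℝ φ z w + fderiv ℝ u z w := by
  have h1 : HasFDerivAt φ (fderiv ℝ φ z) z := (hφ.differentiable (by simp) z).hasFDerivAt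
  have h2 : HasFDerivAt u (fderiv ℝ u z) z := (hu.differentiable (by simp) z).hasFDerivAt
  have h3 : HasFDerivAt (fun z => φ z + u z - k) (fderiv ℝ φ z + fderiv ℝ u z) z :=
    (h1.add h2).sub_const k
  rw [h3.fderiv]
  rfl

theorem jful_dX_sub {φ u : ℝ × ℝ → ℝ} (hφ : ContDiff ℝ ∞ φ) (hu : ContDiff ℝ ∞ u) (k : ℝ)
    (z : ℝ × ℝ) (w : ℝ × ℝ) : fderiv ℝ (fun z => φ z - u z + k) z w =
      fderiv ℝ φ z w - fderiv ℝ u z w := by
  have h1 : HasFDerivAt φ (fderiv ℝ φ z) z := (hφ.differentiable (by simp) z).hasFDerivAt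
  have h2 : HasFDerivAt u (fderiv ℝ u z) z := (hu.differentiable (by simp) z).hasFDerivAt
  have h3 : HasFDerivAt (fun z => φ z - u z + k) (fderiv ℝ φ z - fderiv ℝ u z) z :=
    (h1.sub h2).add_const k
  rw [h3.fderiv]
  rfl

theorem st_JFUL (hH : ST_HHF) : ST_JFUL := by
  intro φ u a hφ hu ha
  obtain ⟨-, -, h1, -, -, -, -, h2, -⟩ := hH
  have hee := jful_ee
  have hge : 1 ≤ u (pr a.1) / ee := (one_le_div hee).2 ha
  have hg : ee * gg (u (pr a.1) / ee) = u (pr a.1) - kk := by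
    rw [h2 _ hge]
    unfold kk
    field_simp
    ring
  simp only [Jn, Gr, mem_ofPred_eq, dX, dT]
  rw [h1 _ hge, hg, jful_dX_add hφ hu, jful_dX_add hφ hu, jful_dX_sub hφ hu, jful_dX_sub hφ hu]
  constructor
  · rintro ⟨s, hs, e1, e2, e3⟩
    have : (s - 1) * (s + 1) = 0 := by ring_nf; linarith
    rcases mul_eq_zero.1 this with h | h
    · left
      have hs1 : s = 1 := by linarith
      rw [hs1] at e1 e2 e3
      rw [Real.sign_one] at e3
      exact ⟨by linarith, by linarith, by linarith⟩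
    · right
      have hs1 : s = -1 := by linarith
      rw [hs1] at e1 e2 e3
      rw [Real.sign_neg, Real.sign_one] at e3
      exact ⟨by linarith, by linarith, by linarith⟩
  · rintro (⟨e1, e2, e3⟩ | ⟨e1, e2, e3⟩)
    · refine ⟨1, by norm_num, by linarith, by linarith, ?_⟩
      rw [Real.sign_one]
      linarith
    · refine ⟨-1, by norm_num, by linarith, by linarith, ?_⟩
      rw [Real.sign_neg, Real.sign_one]
      linarith

end GW
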